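import Pool.Agent.H46.MIC.Ev
import Pool.Agent.H5.K2.SEP

/-!
# The times of several samples of one line

If the time is almost full given the line and the window, then the times of several samples of
one line are almost independent of every function of the line, and two samples of one line are
rarely near.
-/

set_option autoImplicit false

namespace Pool.TMS

open Finset
open Pool.Agent.H49.Ent Pool.Agent.H32.Dense Pool.STK
open Pool.BFL (Pb)
open Pool.K2S (cpn)
open Pool.CLU (cpn_law cpn_pos cpn_marg H_cpn)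
open Pool.MIC (CH_prop_le)

variable {Ω Λ Γ Β Θ : Type} [Fintype Ω]

/-- The entropy of the samples given the line. -/
theorem cpn_times {p : Ω → ℝ} (hp : IsLaw p) (L : Ω → Λ) (th : Ω → Θ) (N : ℕ) :
    CH (cpn p L N) (fun w i => th (w i)) (fun w => L (w 0)) = (N + 1) * CH p th L := by
  classical
  have hq := cpn_law hp L N
  have h1 := H_cpn hp.nonneg L N (fun ω => (th ω, L ω))
    (fun ω ω' _ _ e => (Prod.ext_iff.1 e).2)
  have h2 : H (cpn p L N) (fun w => ((fun i => th (w i)), L (w 0))) =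
      H (cpn p L N) (fun w i => (th (w i), L (w i))) := by
    refine H_congr hq.nonneg ?_ ?_
    · intro w w' _ _ e
      refine Prod.ext ?_ ?_
      · funext i
        have e1 : (th (w i), L (w i)) = (th (w' i), L (w' i)) := congrFun e i
        exact (Prod.mk.inj e1).1
      · have e1 : (th (w 0), L (w 0)) = (th (w' 0), L (w' 0)) := congrFun e 0
        exact (Prod.mk.inj e1).2
    · intro w w' hw hw' e
      have e1 := congrArg Prod.fst e
      have e2 := congrArg Prod.snd e
      simp only at e1 e2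
      funext i
      refine Prod.ext (congrFun e1 i) ?_
      show L (w i) = L (w' i)
      rw [(cpn_pos hp.nonneg L N w hw).2 i, (cpn_pos hp.nonneg L N w' hw').2 i, e2]
  have h3 : H (cpn p L N) (fun w => L (w 0)) = H p L :=
    (cpn_marg hp.nonneg L N 0).H L
  unfold CH
  rw [h2, h1, h3]
  ring

/-- The relative time. -/
def rt (T : Ω → ℕ) (J w : ℕ) (ω : Ω) : ℕ := T ω % 2 ^ (J - w)

omit [Fintype Ω] in
theorem rt_lt (T : Ω → ℕ) (J w : ℕ) (ω : Ω) : rt T J w ω < 2 ^ (J - w) :=
  Nat.mod_lt _ (by positivity)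

/-- The relative time given a variable which knows the window. -/
theorem CH_rt {S : Type} {p : Ω → ℝ} (hp : IsLaw p) (T : Ω → ℕ) (J w : ℕ) (W : Ω → S)
    (hW : Det p W (fun ω => T ω / 2 ^ (J - w))) : CH p (rt T J w) W = CH p T W := by
  refine le_antisymm ?_ ?_
  · refine CH_mono_left hp.nonneg fun ω ω' _ _ e => ?_
    have e1 : T ω = T ω' := (Prod.ext_iff.1 e).1
    show T ω % 2 ^ (J - w) = T ω' % 2 ^ (J - w)
    rw [e1]
  · refine CH_mono_left hp.nonneg fun ω ω' hω hω' e => ?_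
    have e1 : T ω % 2 ^ (J - w) = T ω' % 2 ^ (J - w) := (Prod.ext_iff.1 e).1
    have e2 : T ω / 2 ^ (J - w) = T ω' / 2 ^ (J - w) := hW ω ω' hω hω' (Prod.ext_iff.1 e).2
    rw [← Nat.div_add_mod (T ω) (2 ^ (J - w)), ← Nat.div_add_mod (T ω') (2 ^ (J - w)), e1, e2]

/-- **The times of the samples** are almost independent of a function of the line. -/
theorem times_of {p : Ω → ℝ} (hp : IsLaw p) {L : Ω → Λ} {b : Ω → Γ} {B : Ω → Β} {T : Ω → ℕ}
    {J w : ℕ} {θ : ℝ} (hb : Det p L b) (hB : Det p L B)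
    (hW : Det p L (fun ω => T ω / 2 ^ (J - w)))
    (ht : ((J - w : ℕ) : ℝ) * Real.log 2 - θ ≤ CH p T L) (N : ℕ) :
    CH (cpn p L N) (fun v => B (v 0)) (fun v => b (v 0)) ≤
      CH (cpn p L N) (fun v => B (v 0)) (fun v => (b (v 0), fun i => rt T J w (v i))) +
        (N + 1) * θ := by
  classical
  have hq := cpn_law hp L N
  have h0 := cpn_times hp L (rt T J w) N
  rw [CH_rt hp T J w L hW] at h0
  have h1 := CH_chain hq.nonneg (fun v => B (v 0)) (fun v => fun i => rt T J w (v i))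
    (fun v => b (v 0))
  have h2 := CH_chain hq.nonneg (fun v => fun i => rt T J w (v i)) (fun v => B (v 0))
    (fun v => b (v 0))
  have h3 : CH (cpn p L N) (fun v => (B (v 0), fun i => rt T J w (v i))) (fun v => b (v 0)) =
      CH (cpn p L N) (fun v => ((fun i => rt T J w (v i)), B (v 0))) (fun v => b (v 0)) :=
    Pool.MIC.CH_swl hq.nonneg _ _ _
  have h4 : CH (cpn p L N) (fun v => fun i => rt T J w (v i)) (fun v => b (v 0)) ≤
      (N + 1) * (((J - w : ℕ) : ℝ) * Real.log 2) := by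
    have h := CH_le_card hq.nonneg hq.sum_one (fun v : Fin (N + 1) → Ω => fun i => rt T J w (v i))
      (fun v => b (v 0)) (fun _ => Fintype.piFinset fun _ => range (2 ^ (J - w)))
      (fun v _ => Fintype.mem_piFinset.2 fun i => mem_range.2 (rt_lt T J w (v i)))
    rw [Ex_const hq.sum_one, Fintype.card_piFinset, prod_const, card_range, card_univ,
      Fintype.card_fin] at h
    push_cast at h
    rw [Real.log_pow, Real.log_pow] at h
    push_cast at h
    exact h
  have h5 : CH (cpn p L N) (fun v => fun i => rt T J w (v i)) (fun v => L (v 0)) ≤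
      CH (cpn p L N) (fun v => fun i => rt T J w (v i)) (fun v => (B (v 0), b (v 0))) := by
    refine CH_mono_cond hq.nonneg fun v v' hv hv' e => ?_
    have e1 := (cpn_pos hp.nonneg L N v hv).1 0
    have e2 := (cpn_pos hp.nonneg L N v' hv').1 0
    exact Prod.ext (hB _ _ e1 e2 e) (hb _ _ e1 e2 e)
  have h6 : CH (cpn p L N) (fun v => B (v 0)) (fun v => ((fun i => rt T J w (v i)), b (v 0))) =
      CH (cpn p L N) (fun v => B (v 0)) (fun v => (b (v 0), fun i => rt T J w (v i))) :=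
    Pool.MIC.CH_swc hq.nonneg _ _ _
  have h7 : ((N : ℝ) + 1) * (((J - w : ℕ) : ℝ) * Real.log 2 - θ) ≤ (N + 1) * CH p T L :=
    mul_le_mul_of_nonneg_left ht (by positivity)
  rw [mul_sub] at h7
  linarith

/-- The time is full in the windows of the line. -/
theorem win_low {p : Ω → ℝ} (hp : IsLaw p) (T : Ω → ℕ) (L : Ω → Λ) {J w₀ w : ℕ} {θ : ℝ}
    (h : w₀ ≤ w) (h' : w ≤ J) (hL : Det p L (fun ω => T ω / 2 ^ (J - w₀)))
    (ht : ((J - w₀ : ℕ) : ℝ) * Real.log 2 - θ ≤ CH p T L) :
    ((J - w : ℕ) : ℝ) * Real.log 2 - θ ≤ CH p T (fun ω => (L ω, T ω / 2 ^ (J - w))) := by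
  classical
  have h1 := CH_le_add hp.nonneg T (fun ω => T ω / 2 ^ (J - w)) L
  have hdiv : ∀ t : ℕ, t / 2 ^ (J - w₀) = t / 2 ^ (J - w) / 2 ^ (w - w₀) := by
    intro t
    rw [Nat.div_div_eq_div_mul, ← pow_add, show J - w + (w - w₀) = J - w₀ by omega]
  have h2 : CH p (fun ω => T ω / 2 ^ (J - w)) L ≤ ((w - w₀ : ℕ) : ℝ) * Real.log 2 := by
    have h3 : CH p (fun ω => T ω / 2 ^ (J - w)) L ≤
        CH p (fun ω => T ω / 2 ^ (J - w) % 2 ^ (w - w₀)) L := by
      refine CH_mono_left hp.nonneg ?_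
      intro ω ω' hω hω' e
      have e1 : T ω / 2 ^ (J - w) % 2 ^ (w - w₀) = T ω' / 2 ^ (J - w) % 2 ^ (w - w₀) :=
        (Prod.ext_iff.1 e).1
      have e2 : T ω / 2 ^ (J - w₀) = T ω' / 2 ^ (J - w₀) := hL ω ω' hω hω' (Prod.ext_iff.1 e).2
      rw [hdiv, hdiv] at e2
      show T ω / 2 ^ (J - w) = T ω' / 2 ^ (J - w)
      rw [← Nat.div_add_mod (T ω / 2 ^ (J - w)) (2 ^ (w - w₀)),
        ← Nat.div_add_mod (T ω' / 2 ^ (J - w)) (2 ^ (w - w₀)), e1, e2]
    refine h3.trans ?_
    have h4 := CH_le_card hp.nonneg hp.sum_one (fun ω => T ω / 2 ^ (J - w) % 2 ^ (w - w₀)) L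
      (fun _ => range (2 ^ (w - w₀))) (fun ω _ => mem_range.2 (Nat.mod_lt _ (by positivity)))
    rw [Ex_const hp.sum_one, card_range] at h4
    push_cast at h4
    rwa [Real.log_pow] at h4
  have h3 : CH p T (fun ω => (T ω / 2 ^ (J - w), L ω)) =
      CH p T (fun ω => (L ω, T ω / 2 ^ (J - w))) := Pool.MIC.CH_swc hp.nonneg _ _ _
  have h4 : ((J - w₀ : ℕ) : ℝ) = ((J - w : ℕ) : ℝ) + ((w - w₀ : ℕ) : ℝ) := by
    rw [← Nat.cast_add]
    congr 1
    omega
  rw [h4, add_mul] at ht
  linarith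

/-- The first `y` digits of the relative time are full. -/
theorem top_full {p : Ω → ℝ} (hp : IsLaw p) (T : Ω → ℕ) (L : Ω → Λ) {J w y : ℕ} {θ : ℝ}
    (h : w + y ≤ J) (hW : Det p L (fun ω => T ω / 2 ^ (J - w)))
    (ht : ((J - w : ℕ) : ℝ) * Real.log 2 - θ ≤ CH p T L) :
    y * Real.log 2 - θ ≤ CH p (fun ω => rt T J w ω / 2 ^ (J - w - y)) L := by
  classical
  have h1 := CH_le_add hp.nonneg (rt T J w) (fun ω => rt T J w ω / 2 ^ (J - w - y)) L
  rw [CH_rt hp T J w L hW] at h1
  have h2 : CH p (rt T J w) (fun ω => (rt T J w ω / 2 ^ (J - w - y), L ω)) ≤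
      ((J - w - y : ℕ) : ℝ) * Real.log 2 := by
    have h3 : CH p (rt T J w) (fun ω => (rt T J w ω / 2 ^ (J - w - y), L ω)) ≤
        CH p (fun ω => rt T J w ω % 2 ^ (J - w - y))
          (fun ω => (rt T J w ω / 2 ^ (J - w - y), L ω)) := by
      refine CH_mono_left hp.nonneg ?_
      intro ω ω' hω hω' e
      have e1 : rt T J w ω % 2 ^ (J - w - y) = rt T J w ω' % 2 ^ (J - w - y) :=
        (Prod.ext_iff.1 e).1
      have e2 : rt T J w ω / 2 ^ (J - w - y) = rt T J w ω' / 2 ^ (J - w - y) :=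
        (Prod.ext_iff.1 (Prod.ext_iff.1 e).2).1
      rw [← Nat.div_add_mod (rt T J w ω) (2 ^ (J - w - y)),
        ← Nat.div_add_mod (rt T J w ω') (2 ^ (J - w - y)), e1, e2]
    refine h3.trans ?_
    have h4 := CH_le_card hp.nonneg hp.sum_one (fun ω => rt T J w ω % 2 ^ (J - w - y))
      (fun ω => (rt T J w ω / 2 ^ (J - w - y), L ω))
      (fun _ => range (2 ^ (J - w - y))) (fun ω _ => mem_range.2 (Nat.mod_lt _ (by positivity)))
    rw [Ex_const hp.sum_one, card_range] at h4
    push_cast at h4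
    rwa [Real.log_pow] at h4
  have h4 : ((J - w : ℕ) : ℝ) = ((J - w - y : ℕ) : ℝ) + y := by
    rw [← Nat.cast_add]
    congr 1
    omega
  rw [h4, add_mul] at ht
  linarith

/-- **Two samples of one line are rarely near.** -/
theorem sep_of {p : Ω → ℝ} (hp : IsLaw p) (T : Ω → ℕ) (L : Ω → Λ) {J w y : ℕ} {θ : ℝ}
    (h : w + y ≤ J) (hW : Det p L (fun ω => T ω / 2 ^ (J - w)))
    (ht : ((J - w : ℕ) : ℝ) * Real.log 2 - θ ≤ CH p T L) :
    Pb (dbl p L) (fun v : Ω × Ω => |((rt T J w v.1 : ℝ) / 2 ^ (J - w)) -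
      ((rt T J w v.2 : ℝ) / 2 ^ (J - w))| * 2 ^ y < 1) * (y * Real.log 2 - Real.log 3) ≤
      θ + Real.log 2 := by
  classical
  obtain ⟨c, hc⟩ : ∃ c : Ω → ℕ, c = fun ω => rt T J w ω / 2 ^ (J - w - y) := ⟨_, rfl⟩
  obtain ⟨A, hA⟩ : ∃ A : Ω × Ω → Prop, A = fun v : Ω × Ω => |((rt T J w v.1 : ℝ) / 2 ^ (J - w)) -
      ((rt T J w v.2 : ℝ) / 2 ^ (J - w))| * 2 ^ y < 1 := ⟨_, rfl⟩
  have hq : IsLaw (dbl p L) := ⟨dbl_nonneg hp.nonneg, by
    rw [(dbl_fst (b := L) hp.nonneg).sum, hp.sum_one]⟩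
  have h1 : y * Real.log 2 - θ ≤ CH p c L := by
    rw [hc]
    exact top_full hp T L h hW ht
  rw [← CH_dbl_2 (b := L) hp.nonneg c c] at h1
  rw [← hA]
  have h2 : CH (dbl p L) (fun v => c v.2) (fun v => (L v.2, c v.1)) ≤
      CH (dbl p L) (fun v => c v.2) (fun v => (A v, (L v.2, c v.1))) + Real.log 2 := by
    have a1 := CH_le_add hq.nonneg (fun v => c v.2) A (fun v : Ω × Ω => (L v.2, c v.1))
    have a2 := CH_prop_le hq.nonneg hq.sum_one A (fun v : Ω × Ω => (L v.2, c v.1))
    linarith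
  -- the pairs which are near have neighbouring cells
  have hcell : ∀ v : Ω × Ω, A v → c v.2 ∈ Finset.Icc (c v.1 - 1) (c v.1 + 1) := by
    intro v hv
    rw [hA] at hv
    have hM : (2 : ℝ) ^ (J - w) = 2 ^ (J - w - y) * 2 ^ y := by
      rw [← pow_add]
      congr 1
      omega
    have hpos : (0 : ℝ) < 2 ^ (J - w) := by positivity
    have e1 : |(rt T J w v.1 : ℝ) - rt T J w v.2| < 2 ^ (J - w - y) := by
      rw [← sub_div, abs_div, abs_of_pos hpos, div_mul_eq_mul_div, div_lt_one hpos, hM] at hv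
      exact lt_of_mul_lt_mul_right hv (by positivity)
    have e2 := abs_lt.1 e1
    have e3 : rt T J w v.2 < rt T J w v.1 + 2 ^ (J - w - y) := by
      have : (rt T J w v.2 : ℝ) < ((rt T J w v.1 + 2 ^ (J - w - y) : ℕ) : ℝ) := by
        push_cast
        linarith
      exact_mod_cast this
    have e4 : rt T J w v.1 < rt T J w v.2 + 2 ^ (J - w - y) := by
      have : (rt T J w v.1 : ℝ) < ((rt T J w v.2 + 2 ^ (J - w - y) : ℕ) : ℝ) := by
        push_cast
        linarith
      exact_mod_cast this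
    have hd : 0 < 2 ^ (J - w - y) := by positivity
    have e5 : c v.2 ≤ c v.1 + 1 := by
      rw [hc]
      simp only
      refine (Nat.div_le_div_right e3.le).trans ?_
      rw [Nat.add_div_right _ hd]
    have e6 : c v.1 ≤ c v.2 + 1 := by
      rw [hc]
      simp only
      refine (Nat.div_le_div_right e4.le).trans ?_
      rw [Nat.add_div_right _ hd]
    rw [Finset.mem_Icc]
    omega
  have hlt : ∀ v : Ω × Ω, c v.2 ∈ range (2 ^ y) := by
    intro v
    rw [mem_range, hc]
    simp only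
    rw [Nat.div_lt_iff_lt_mul (by positivity), ← pow_add,
      show y + (J - w - y) = J - w by omega]
    exact rt_lt T J w v.2
  have h3 := CH_le_card hq.nonneg hq.sum_one (fun v : Ω × Ω => c v.2)
    (fun v => (A v, (L v.2, c v.1)))
    (fun a => if a.1 then Finset.Icc (a.2.2 - 1) (a.2.2 + 1) else range (2 ^ y))
    (fun v _ => by
      by_cases hv : A v
      · simp only [hv, if_true]
        exact hcell v hv
      · simp only [hv, if_false]
        exact hlt v)
  have h4 : Ex (dbl p L) (fun v => Real.log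
      (((if A v then Finset.Icc (c v.1 - 1) (c v.1 + 1) else range (2 ^ y)).card : ℕ) : ℝ)) ≤
      Pb (dbl p L) A * Real.log 3 + (1 - Pb (dbl p L) A) * (y * Real.log 2) := by
    have h5 : ∀ v : Ω × Ω, Real.log
        (((if A v then Finset.Icc (c v.1 - 1) (c v.1 + 1) else range (2 ^ y)).card : ℕ) : ℝ) ≤
        (if A v then Real.log 3 - y * Real.log 2 else 0) + y * Real.log 2 := by
      intro v
      by_cases hv : A v
      · rw [if_pos hv, if_pos hv, sub_add_cancel]
        have h6 : (Finset.Icc (c v.1 - 1) (c v.1 + 1)).card ≤ 3 := by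
          rw [Nat.card_Icc]
          omega
        have h7 : 0 < (Finset.Icc (c v.1 - 1) (c v.1 + 1)).card := by
          rw [Nat.card_Icc]
          omega
        refine Real.log_le_log (by exact_mod_cast h7) (by exact_mod_cast h6)
      · rw [if_neg hv, if_neg hv, zero_add, card_range]
        push_cast
        rw [Real.log_pow]
    refine (Ex_mono hq.nonneg fun v _ => h5 v).trans (le_of_eq ?_)
    rw [Ex_add, Ex_const hq.sum_one]
    have h6 : Ex (dbl p L) (fun v => if A v then Real.log 3 - y * Real.log 2 else 0) =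
        Pb (dbl p L) A * (Real.log 3 - y * Real.log 2) := by
      unfold Ex Pb
      rw [Finset.sum_mul]
      refine Finset.sum_congr rfl fun v _ => ?_
      by_cases hv : A v
      · simp only [hv, if_true]
      · simp only [hv, if_false, mul_zero, zero_mul]
    rw [h6]
    ring
  have h5 := h1.trans (h2.trans (add_le_add_left (h3.trans h4) _))
  nlinarith

end Pool.TMS
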